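import Pool.Agent.L0h99.MN.Stm2

/-!
# Project MD (helper99): the module EIN
-/

set_option autoImplicit false

namespace Pool.Agent.L0h23.MD

open Finset Pool.Agent.L0h99.MN Pool.Agent.L0h99.MD

/-- module EIN -/
theorem EIN : St_EIN := by
  intro V V' _ _ _ _ f G hf
  unfold E2 ee
  rw [Finset.sum_image (fun a _ b _ h => hf h)]
  refine Finset.sum_congr rfl fun x _ => ?_
  have h1 : N G (f x) ∩ univ.image f = (N (G.comap f) x).image f := by
    ext y
    simp only [mem_inter, mem_N, mem_image, mem_univ, true_and, SimpleGraph.comap_adj]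
    constructor
    · rintro ⟨h2, z, rfl⟩
      exact ⟨z, h2, rfl⟩
    · rintro ⟨z, h2, rfl⟩
      exact ⟨h2, z, rfl⟩
  rw [h1, Finset.card_image_of_injective _ hf]

end Pool.Agent.L0h23.MD
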